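import Pool.Agent.H948.SF.Base

/-!
# [HAND] handing over in one window
-/

set_option autoImplicit false

namespace Pool.Agent.H746.SF

open MeasureTheory ProbabilityTheory Set Filter
open scoped ENNReal NNReal Nat Topology
open Pool.Agent.H948.SF

/-- A window without marks. -/
theorem no_mark {V : Type} {ω : Env (Lab V)} {x : V} {k : ℤ} (h : (ω (Sum.inr x, k)).1 = 0)
    {r : ℝ} (h1 : (k : ℝ) < r) (h2 : r ≤ k + 1) : r ∉ marks ω (Sum.inr x) := by
  rintro ⟨m, n, hn, rfl⟩
  have hU := (((ω (Sum.inr x, m)).2 n).2 : ((ω (Sum.inr x, m)).2 n : ℝ) ∈ Ioc (0 : ℝ) 1)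
  have hm1 : k ≤ m := by
    have : (k : ℝ) < m + 1 := by linarith [hU.2]
    exact Int.lt_add_one_iff.1 (by exact_mod_cast this)
  have hm2 : m < k + 1 := by
    have : (m : ℝ) < ((k + 1 : ℤ) : ℝ) := by push_cast at h2 ⊢; linarith [hU.1]
    exact_mod_cast this
  have : m = k := by omega
  subst this
  omega

theorem cell_zero (r : ℝ) (hr : 0 ≤ r) :
    cellLaw r {c : Cell | c.1 = 0} = ENNReal.ofReal (Real.exp (-r)) := by
  have e1 : {c : Cell | c.1 = 0} = ({0} : Set ℕ) ×ˢ (univ : Set (ℕ → U1)) := by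
    ext c
    simp
  rw [e1, cellLaw, Measure.prod_prod, measure_univ, mul_one, poissonMeasure_singleton,
    Real.coe_toNNReal r hr]
  simp

theorem cell_pos (r : ℝ) (hr : 0 ≤ r) :
    cellLaw r {c : Cell | c.1 ≠ 0} = ENNReal.ofReal (1 - Real.exp (-r)) := by
  have hm : MeasurableSet {c : Cell | c.1 = 0} := measurable_fst (measurableSet_singleton 0)
  have e1 : {c : Cell | c.1 ≠ 0} = {c : Cell | c.1 = 0}ᶜ := rfl
  rw [e1, prob_compl_eq_one_sub hm, cell_zero r hr, ENNReal.ofReal_sub _ (Real.exp_pos _).le,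
    ENNReal.ofReal_one]

theorem s_hand' : S_HAND := by
  classical
  intro V _ G lam x y k hlam
  constructor
  · intro hadj
    have hxy : x ≠ y := hadj.ne
    set t : Lab V × ℤ → Set Cell := fun i => match i.1 with
      | Sum.inl _ => {c | c.1 ≠ 0}
      | Sum.inr _ => {c | c.1 = 0} with ht
    set S : Finset (Lab V × ℤ) := {(Sum.inr x, k), (Sum.inr y, k), (Sum.inl s(x, y), k)} with hS
    have hsub : (Set.pi (S : Set (Lab V × ℤ)) t) ⊆ {ω | Con (Rs G {x, y}) ω x k y (k + 1)} := by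
      intro ω hω
      have h1 : (ω (Sum.inr x, k)).1 = 0 := hω (Sum.inr x, k) (by simp [hS])
      have h2 : (ω (Sum.inr y, k)).1 = 0 := hω (Sum.inr y, k) (by simp [hS])
      have h3 : (ω (Sum.inl s(x, y), k)).1 ≠ 0 := hω (Sum.inl s(x, y), k) (by simp [hS])
      have hU := (((ω (Sum.inl s(x, y), k)).2 0).2 :
        ((ω (Sum.inl s(x, y), k)).2 0 : ℝ) ∈ Ioc (0 : ℝ) 1)
      have hmem : (k : ℝ) + ((ω (Sum.inl s(x, y), k)).2 0 : ℝ) ∈ marks ω (Sum.inl s(x, y)) :=
        ⟨k, 0, Nat.pos_of_ne_zero h3, rfl⟩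
      have p1 : PE (Rs G {x, y}) ω x k x (k + ((ω (Sum.inl s(x, y), k)).2 0 : ℝ)) :=
        (PE.refl x _).stay (by linarith [hU.1])
          fun r a b => no_mark h1 a (b.trans (by linarith [hU.2]))
      have p2 : PE (Rs G {x, y}) ω x k y (k + ((ω (Sum.inl s(x, y), k)).2 0 : ℝ)) :=
        p1.cross ⟨hadj, by simp, by simp⟩ (by linarith [hU.1]) hmem
      have p3 : PE (Rs G {x, y}) ω x k y (k + 1) :=
        p2.stay (by linarith [hU.2]) fun r a b => no_mark h2 (by linarith [hU.1]) b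
      show PE (Rs G {x, y}) ω x k y ((k + 1 : ℤ) : ℝ)
      push_cast
      exact p3
    refine le_trans (le_of_eq ?_) (measure_mono hsub)
    have hmt : ∀ i ∈ S, MeasurableSet (t i) := by
      rintro ⟨i, l⟩ -
      rcases i with i | i
      · exact (measurable_fst (measurableSet_singleton 0)).compl
      · exact measurable_fst (measurableSet_singleton 0)
    unfold mu envLaw
    rw [Measure.infinitePi_pi _ hmt, hS, Finset.prod_insert (by simp [hxy]),
      Finset.prod_insert (by simp), Finset.prod_singleton]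
    show _ = cellLaw 1 {c | c.1 = 0} * (cellLaw 1 {c | c.1 = 0} * cellLaw lam {c | c.1 ≠ 0})
    rw [cell_zero 1 zero_le_one, cell_pos lam hlam.le, ← ENNReal.ofReal_mul (Real.exp_pos _).le,
      ← ENNReal.ofReal_mul (Real.exp_pos _).le]
    congr 1
    unfold hc
    rw [← mul_assoc, ← Real.exp_add]
    norm_num
  · have e1 : {ω : Env (Lab V) | (ω (Sum.inr x, k)).1 = 0} =
        Set.pi ((({(Sum.inr x, k)} : Finset (Lab V × ℤ))) : Set (Lab V × ℤ))
          (fun _ => {c : Cell | c.1 = 0}) := by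
      ext ω
      simp
    unfold mu envLaw
    have hm : MeasurableSet {c : Cell | c.1 = 0} := measurable_fst (measurableSet_singleton 0)
    rw [e1, Measure.infinitePi_pi _ fun _ _ => hm, Finset.prod_singleton]
    exact cell_zero 1 zero_le_one

theorem s_hand (_ : S_MEAS) : S_HAND := s_hand'

end Pool.Agent.H746.SF
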